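import Mathlib
import Pool.Agent.RPF.Fub

/-!
# Restricted projections of asymptotically flat sets
-/

namespace Pool.Agent.Results.MP_f1dd74_an.AsymptFlat

open Set MeasureTheory RPF
open scoped NNReal ENNReal

/-- **Theorem.** Let `n ≥ m` and let `P_t : ℝ^n → ℝ^m`, `t ∈ [0,1]`, be an analytic,
subspace-nondegenerate family of linear maps. There is an exponent `a`, depending only on the
family, such that the following holds. Let `A ⊆ ℝ^n` be a set with Borel subsets `B_i` of positive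
finite `s_i`-dimensional Hausdorff measure, `dim A ≤ sup s_i`, such that every `B_i` is
asymptotically `m`-flat with exponent `a` at almost all of its points. Then
`dim P_t(A) = min(dim A, m)` for almost every `t ∈ [0,1]`. -/
theorem result {n m : ℕ} (hmn : m ≤ n)
    (P : ℝ → (EuclideanSpace ℝ (Fin n) →ₗ[ℝ] EuclideanSpace ℝ (Fin m)))
    (hPa : AnalyticFamily P) (hP : SubspaceNondegenerate P) :
    ∃ a : ℕ, ∀ (A : Set (EuclideanSpace ℝ (Fin n))) (B : ℕ → Set (EuclideanSpace ℝ (Fin n)))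
      (s : ℕ → ℝ≥0), (∀ i, B i ⊆ A) → (∀ i, MeasurableSet (B i)) →
      (∀ i, μH[(s i : ℝ)] (B i) ≠ 0 ∧ μH[(s i : ℝ)] (B i) ≠ ∞) →
      (∀ i, ∀ᵐ x ∂((μH[(s i : ℝ)] : Measure (EuclideanSpace ℝ (Fin n))).restrict (B i)),
        AsympFlat m a (B i) x) →
      dimH A ≤ ⨆ i, (s i : ℝ≥0∞) →
      ∀ᵐ t ∂(volume.restrict (Icc (0 : ℝ) 1)), dimH (P t '' A) = min (dimH A) m :=
  RPF.main hmn P hPa hP

end Pool.Agent.Results.MP_f1dd74_an.AsymptFlat
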