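import Pool.Agent.RPS48.Reparam
import Pool.Agent.RPS48.Wron

/-!
# Restricted projections: analyticity cannot be replaced by smoothness
-/

set_option autoImplicit false

open Set MeasureTheory Module
open scoped Topology ENNReal NNReal ContDiff

namespace Pool.Agent.Results.MP_f1dd74_an.SmoothFails

/-- `P` is a subspace-nondegenerate family of linear maps `ℝ^n → ℝ^m`, `t ∈ [0,1]`: for every linear
subspace `π` of `ℝ^n` one has `dim P_t(π) = min(dim π, m)` for all but finitely many `t ∈ [0,1]`. -/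
def SubspaceNondegenerate {n m : ℕ}
    (P : ℝ → (EuclideanSpace ℝ (Fin n) →ₗ[ℝ] EuclideanSpace ℝ (Fin m))) : Prop :=
  ∀ π : Submodule ℝ (EuclideanSpace ℝ (Fin n)),
    {t ∈ Icc (0 : ℝ) 1 | finrank ℝ (π.map (P t)) ≠ min (finrank ℝ π) m}.Finite

/-- Let `n > m ≥ 1`. (1) The assertion of the problem with `C^∞` in place of `analytic` is false:
there is a `C^∞`, subspace-nondegenerate family `P_t : ℝ^n → ℝ^m` and a Borel set `A` of dimension
at least `n - m` with `dim_H P_t(A) = 0` for all `t` in a closed subset of `[0,1]` of measure more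
than `1 - δ`. (2) Every continuous (e.g. analytic) subspace-nondegenerate family becomes such a
family after a `C^∞`, strictly increasing change of the parameter. -/
theorem result (n m : ℕ) (hm : 1 ≤ m) (hmn : m < n) (δ : ℝ) (hδ : 0 < δ) :
    (∃ (P : ℝ → (EuclideanSpace ℝ (Fin n) →ₗ[ℝ] EuclideanSpace ℝ (Fin m)))
      (A : Set (EuclideanSpace ℝ (Fin n))) (K : Set ℝ),
      (∀ x, ContDiff ℝ ∞ (fun t => P t x)) ∧ SubspaceNondegenerate P ∧
      MeasurableSet A ∧ ((n - m : ℕ) : ℝ≥0∞) ≤ dimH A ∧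
      IsClosed K ∧ K ⊆ Icc 0 1 ∧ ENNReal.ofReal (1 - δ) < volume K ∧
      ∀ t ∈ K, dimH (P t '' A) = 0 ∧ dimH (P t '' A) < min (dimH A) m) ∧
    (∀ Q : ℝ → (EuclideanSpace ℝ (Fin n) →ₗ[ℝ] EuclideanSpace ℝ (Fin m)),
      (∀ x, ContinuousOn (fun s => Q s x) (Icc 0 1)) → SubspaceNondegenerate Q →
      ∃ (θ : ℝ → ℝ) (A : Set (EuclideanSpace ℝ (Fin n))) (K : Set ℝ),
        ContDiff ℝ ∞ θ ∧ StrictMonoOn θ (Icc 0 1) ∧ MapsTo θ (Icc 0 1) (Icc 0 1) ∧
        SubspaceNondegenerate (fun t => Q (θ t)) ∧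
        MeasurableSet A ∧ ((n - m : ℕ) : ℝ≥0∞) ≤ dimH A ∧
        IsClosed K ∧ K ⊆ Icc 0 1 ∧ ENNReal.ofReal (1 - δ) < volume K ∧
        ∀ t ∈ K, dimH (Q (θ t) '' A) = 0) := by
  have h2 : ∀ Q : ℝ → (EuclideanSpace ℝ (Fin n) →ₗ[ℝ] EuclideanSpace ℝ (Fin m)),
      (∀ x, ContinuousOn (fun s => Q s x) (Icc 0 1)) → SubspaceNondegenerate Q →
      ∃ (θ : ℝ → ℝ) (A : Set (EuclideanSpace ℝ (Fin n))) (K : Set ℝ),
        ContDiff ℝ ∞ θ ∧ StrictMonoOn θ (Icc 0 1) ∧ MapsTo θ (Icc 0 1) (Icc 0 1) ∧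
        SubspaceNondegenerate (fun t => Q (θ t)) ∧
        MeasurableSet A ∧ ((n - m : ℕ) : ℝ≥0∞) ≤ dimH A ∧
        IsClosed K ∧ K ⊆ Icc 0 1 ∧ ENNReal.ofReal (1 - δ) < volume K ∧
        ∀ t ∈ K, dimH (Q (θ t) '' A) = 0 := by
    intro Q hQ hnd
    obtain ⟨θ, A, K, h1, h2, h3, h4, h5, h6, h7, h8, h9, h10⟩ :=
      RPS48.reparam hmn Q hQ hnd (min δ (1 / 2)) (lt_min hδ (by norm_num))
        (lt_of_le_of_lt (min_le_right _ _) (by norm_num))
    refine ⟨θ, A, K, h1, h2, h3, h4, h5, h6, h7, h8, lt_of_le_of_lt ?_ h9, h10⟩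
    apply ENNReal.ofReal_le_ofReal
    linarith [min_le_left δ (1 / 2)]
  have hosc : ∀ x, ContDiff ℝ ∞ (fun s => RPS48.osc n m s x) := by
    intro x
    rw [contDiff_euclidean]
    intro i
    have h1 : (fun t => RPS48.osc n m t x i) =
        fun t => Polynomial.aeval t (Polynomial.hasseDeriv (i : ℕ) (RPS48.poly n x)) := by
      funext t
      rw [RPS48.osc_apply, Polynomial.coe_aeval_eq_eval]
    rw [h1]
    exact ((analyticOnNhd_id (𝕜 := ℝ) (s := univ)).aeval_polynomial _).contDiff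
  refine ⟨?_, h2⟩
  obtain ⟨θ, A, K, h1, -, -, h4, h5, h6, h7, h8, h9, h10⟩ :=
    h2 (RPS48.osc n m) (fun x => (hosc x).continuous.continuousOn) (RPS48.osc_nondegenerate n m)
  refine ⟨fun t => RPS48.osc n m (θ t), A, K, fun x => (hosc x).comp h1, h4, h5, h6, h7, h8, h9,
    fun t ht => ⟨h10 t ht, ?_⟩⟩
  rw [h10 t ht]
  apply lt_min
  · refine lt_of_lt_of_le ?_ h6
    have : 0 < n - m := by omega
    exact_mod_cast this
  · exact_mod_cast hm

end Pool.Agent.Results.MP_f1dd74_an.SmoothFails
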