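import Mathlib

/-!
# Restricted projections of sets with thin tangent cones
-/

namespace Pool.Agent.Results.MP_f1dd74_an.TangentCone

open Set MeasureTheory Module Filter Metric
open scoped Topology ENNReal NNReal

/-- `P` is a subspace-nondegenerate family of linear maps `ℝ^n → ℝ^m`, `t ∈ [0,1]`: for every linear
subspace `π` of `ℝ^n` one has `dim P_t(π) = min(dim π, m)` for all but finitely many `t ∈ [0,1]`. -/
def SubspaceNondegenerate {n m : ℕ}
    (P : ℝ → (EuclideanSpace ℝ (Fin n) →ₗ[ℝ] EuclideanSpace ℝ (Fin m))) : Prop :=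
  ∀ π : Submodule ℝ (EuclideanSpace ℝ (Fin n)),
    {t ∈ Icc (0 : ℝ) 1 | finrank ℝ (π.map (P t)) ≠ min (finrank ℝ π) m}.Finite

/-- `B ⊆ ℝ^n` is tangentially `m`-thin: at each point `x ∈ B` the tangent cone of `B` at `x`
(all limits of `c_i (y_i - x)`, `c_i ∈ ℝ`, `y_i ∈ B`, `y_i → x`) is covered by finitely many linear
subspaces of dimension at most `m`. -/
def TangentiallyThin {n : ℕ} (m : ℕ) (B : Set (EuclideanSpace ℝ (Fin n))) : Prop :=
  ∀ x ∈ B, ∃ S : Set (Submodule ℝ (EuclideanSpace ℝ (Fin n))), S.Finite ∧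
    (∀ π ∈ S, finrank ℝ π ≤ m) ∧
    tangentConeAt ℝ B x ⊆ ⋃ π ∈ S, (π : Set (EuclideanSpace ℝ (Fin n)))

section general

variable {E F : Type*} [NormedAddCommGroup E] [NormedSpace ℝ E] [FiniteDimensional ℝ E]
  [NormedAddCommGroup F] [NormedSpace ℝ F]

/-- points of `B` near which `L` is quantitatively injective, with constant `j + 1` at scale
`1 / (j + 1)` -/
def Gd (L : E →ₗ[ℝ] F) (B : Set E) (j : ℕ) : Set E :=
  {x ∈ B | ∀ y ∈ B, ‖y - x‖ < 1 / ((j : ℝ) + 1) → ‖y - x‖ ≤ ((j : ℝ) + 1) * ‖L (y - x)‖}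

lemma exists_Gd (L : E →ₗ[ℝ] F) (B : Set E) (x : E) (hx : x ∈ B)
    (h : ∀ e ∈ tangentConeAt ℝ B x, L e = 0 → e = 0) : ∃ j, x ∈ Gd L B j := by
  by_contra hcon
  push Not at hcon
  have hcon' : ∀ j : ℕ, ∃ y ∈ B, ‖y - x‖ < 1 / ((j : ℝ) + 1) ∧
      ((j : ℝ) + 1) * ‖L (y - x)‖ < ‖y - x‖ := by
    intro j
    by_contra h2
    push Not at h2
    exact hcon j ⟨hx, fun y hy hyx => h2 y hy hyx⟩
  choose y hyB hyx hyL using hcon'
  have hpos : ∀ j, 0 < ‖y j - x‖ := by
    intro j
    have h1 := hyL j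
    have h2 : 0 ≤ ((j : ℝ) + 1) * ‖L (y j - x)‖ := by positivity
    linarith
  set d : ℕ → E := fun j => y j - x with hd
  set c : ℕ → ℝ := fun j => ‖d j‖⁻¹ with hc
  have hLc : Continuous L := L.continuous_of_finiteDimensional
  have hsph : ∀ j, c j • d j ∈ sphere (0 : E) 1 := by
    intro j
    simp only [mem_sphere_iff_norm, sub_zero, norm_smul, hc, norm_inv, norm_norm]
    exact inv_mul_cancel₀ (hpos j).ne'
  obtain ⟨e, he, φ, hφ, hlim⟩ := (isCompact_sphere (0 : E) 1).tendsto_subseq hsph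
  have hd0 : Tendsto d atTop (𝓝 0) := by
    rw [tendsto_zero_iff_norm_tendsto_zero]
    refine squeeze_zero (fun j => norm_nonneg _) (fun j => (hyx j).le) ?_
    exact tendsto_one_div_add_atTop_nhds_zero_nat
  have hemem : e ∈ tangentConeAt ℝ B x := by
    apply mem_tangentConeAt_of_seq atTop (c ∘ φ) (d ∘ φ)
    · exact hd0.comp hφ.tendsto_atTop
    · refine Eventually.of_forall (fun j => ?_)
      simp only [Function.comp_apply, hd, add_sub_cancel]
      exact hyB _
    · exact hlim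
  have hLe : L e = 0 := by
    have h1 : Tendsto (fun j => L (c (φ j) • d (φ j))) atTop (𝓝 (L e)) :=
      (hLc.tendsto e).comp hlim
    have h2 : Tendsto (fun j => L (c (φ j) • d (φ j))) atTop (𝓝 0) := by
      have h3 : Tendsto (fun j => L (c j • d j)) atTop (𝓝 0) := by
        rw [tendsto_zero_iff_norm_tendsto_zero]
        refine squeeze_zero (fun j => norm_nonneg _) (fun j => ?_)
          tendsto_one_div_add_atTop_nhds_zero_nat
        rw [map_smul, norm_smul, hc, norm_inv, norm_norm]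
        have h4 := hyL j
        have h5 : (0 : ℝ) < (j : ℝ) + 1 := by positivity
        rw [inv_mul_le_iff₀ (hpos j), mul_one_div, le_div_iff₀ h5]
        linarith [h4.le]
      exact h3.comp hφ.tendsto_atTop
    exact tendsto_nhds_unique h1 h2
  have := h e hemem hLe
  rw [this] at he
  simp at he

lemma dimH_Gd_le (L : E →ₗ[ℝ] F) (B : Set E) (j : ℕ) :
    dimH (Gd L B j) ≤ dimH (L '' B) := by
  classical
  set r : ℝ := 1 / ((j : ℝ) + 1) / 2 with hr
  have hr0 : 0 < r := by positivity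
  have : SecondCountableTopology E := by
    have : ProperSpace E := FiniteDimensional.proper ℝ E
    infer_instance
  obtain ⟨Z, hZc, hZd⟩ := TopologicalSpace.exists_countable_dense E
  have hcov : Gd L B j ⊆ ⋃ z ∈ Z, (Gd L B j ∩ ball z r) := by
    intro x hx
    obtain ⟨z, hz, hzx⟩ := hZd.exists_dist_lt x hr0
    simp only [mem_iUnion]
    exact ⟨z, hz, hx, hzx⟩
  refine (dimH_mono hcov).trans ?_
  rw [dimH_bUnion hZc]
  refine iSup₂_le (fun z _ => ?_)
  set K : Set E := Gd L B j ∩ ball z r with hK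
  have hanti : AntilipschitzWith (j + 1 : ℝ≥0) (fun p : K => L p.1) := by
    refine AntilipschitzWith.of_le_mul_dist (fun p q => ?_)
    have hp := p.2
    have hq := q.2
    have hpq : ‖(p : E) - q‖ < 1 / ((j : ℝ) + 1) := by
      have h1 : dist (p : E) z < r := hp.2
      have h2 : dist (q : E) z < r := hq.2
      have h3 : dist (p : E) q ≤ dist (p : E) z + dist (q : E) z := dist_triangle_right _ _ _
      rw [← dist_eq_norm]
      have : r + r = 1 / ((j : ℝ) + 1) := by rw [hr]; ring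
      linarith
    have h4 := hq.1.2 p hp.1.1 hpq
    rw [Subtype.dist_eq, dist_eq_norm, dist_eq_norm, ← map_sub]
    simpa using h4
  have h1 : dimH K = dimH (univ : Set K) := by
    have := (isometry_subtype_coe (s := K)).dimH_image (univ : Set K)
    rw [image_univ, Subtype.range_coe] at this
    exact this
  rw [h1]
  refine (hanti.le_dimH_image univ).trans (dimH_mono ?_)
  rintro _ ⟨p, -, rfl⟩
  exact ⟨p, p.2.1.1, rfl⟩

end general

section main

variable {n m : ℕ}

lemma badset_finite (P : ℝ → (EuclideanSpace ℝ (Fin n) →ₗ[ℝ] EuclideanSpace ℝ (Fin m)))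
    (hP : SubspaceNondegenerate P) (B : Set (EuclideanSpace ℝ (Fin n)))
    (hB : TangentiallyThin m B) (x : EuclideanSpace ℝ (Fin n)) (hx : x ∈ B) :
    {t ∈ Icc (0 : ℝ) 1 | ∀ j, x ∉ Gd (P t) B j}.Finite := by
  obtain ⟨S, hSf, hSm, hSc⟩ := hB x hx
  have hfin : (⋃ π ∈ S, {t ∈ Icc (0 : ℝ) 1 |
      finrank ℝ (Submodule.map (P t) π) ≠ min (finrank ℝ π) m}).Finite :=
    hSf.biUnion (fun π _ => hP π)
  refine hfin.subset ?_
  rintro t ⟨htI, ht⟩
  by_contra hcon
  simp only [mem_iUnion, not_exists] at hcon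
  obtain ⟨j, hj⟩ := exists_Gd (P t) B x hx (fun e he hLe => by
    obtain ⟨π, hπS, heπ⟩ := mem_iUnion₂.1 (hSc he)
    have h1 : finrank ℝ (Submodule.map (P t) π) = finrank ℝ π := by
      by_contra hne
      refine hcon π hπS ⟨htI, ?_⟩
      rw [min_eq_left (hSm π hπS)]
      exact hne
    have hinj : Function.Injective ((P t).domRestrict π) := by
      rw [← LinearMap.ker_eq_bot]
      have h2 := LinearMap.finrank_range_add_finrank_ker ((P t).domRestrict π)
      rw [LinearMap.range_domRestrict, h1] at h2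
      have h3 : finrank ℝ (LinearMap.ker ((P t).domRestrict π)) = 0 := by omega
      exact Submodule.finrank_eq_zero.1 h3
    have h4 : (⟨e, heπ⟩ : π) = 0 := by
      apply hinj
      simpa using hLe
    exact congrArg Subtype.val h4)
  exact ht j hj

lemma one_set (P : ℝ → (EuclideanSpace ℝ (Fin n) →ₗ[ℝ] EuclideanSpace ℝ (Fin m)))
    (hP : SubspaceNondegenerate P) (B : Set (EuclideanSpace ℝ (Fin n)))
    (hB : TangentiallyThin m B) :
    {t ∈ Icc (0 : ℝ) 1 | dimH (P t '' B) < dimH B}.Countable := by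
  classical
  set T : ℝ≥0 → Set ℝ := fun q => {t ∈ Icc (0 : ℝ) 1 | dimH (P t '' B) ≤ q ∧ (q : ℝ≥0∞) < dimH B}
    with hT
  obtain ⟨D, hDc, hDd⟩ := TopologicalSpace.exists_countable_dense ℝ≥0
  have hcov : {t ∈ Icc (0 : ℝ) 1 | dimH (P t '' B) < dimH B} ⊆ ⋃ q ∈ D, T q := by
    rintro t ⟨htI, ht⟩
    obtain ⟨a, ha1, ha2⟩ := ENNReal.lt_iff_exists_nnreal_btwn.1 ht
    obtain ⟨b, hb1, hb2⟩ := ENNReal.lt_iff_exists_nnreal_btwn.1 ha2
    obtain ⟨q, hq, hqD⟩ := hDd.exists_between (ENNReal.coe_lt_coe.1 hb1)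
    simp only [mem_iUnion]
    refine ⟨q, hq, htI, ?_, ?_⟩
    · exact ha1.le.trans (ENNReal.coe_le_coe.2 hqD.1.le)
    · exact (ENNReal.coe_lt_coe.2 hqD.2).trans hb2
  refine Countable.mono hcov (hDc.biUnion (fun q _ => ?_))
  by_contra hunc
  have hinf : (T q).Infinite := fun hf => hunc hf.countable
  set t : ℕ → ℝ := fun i => (hinf.natEmbedding (T q) i : ℝ) with ht
  have htT : ∀ i, t i ∈ T q := fun i => (hinf.natEmbedding (T q) i).2
  have htinj : Function.Injective t := by
    intro i k hik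
    exact (hinf.natEmbedding (T q)).injective (Subtype.ext hik)
  have hBcov : B ⊆ ⋃ i : ℕ, ⋃ j : ℕ, Gd (P (t i)) B j := by
    intro x hx
    by_contra hcon
    simp only [mem_iUnion, not_exists] at hcon
    have hfin := badset_finite P hP B hB x hx
    refine (infinite_range_of_injective htinj) (hfin.subset ?_)
    rintro _ ⟨i, rfl⟩
    exact ⟨(htT i).1, fun j => hcon i j⟩
  have h1 : dimH B ≤ q := by
    refine (dimH_mono hBcov).trans ?_
    rw [dimH_iUnion]
    refine iSup_le (fun i => ?_)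
    rw [dimH_iUnion]
    refine iSup_le (fun j => ?_)
    exact (dimH_Gd_le (P (t i)) B j).trans (htT i).2.1
  exact absurd ((htT 0).2.2) (not_lt.2 h1)

end main

/-- **Theorem.** Let `P_t : ℝ^n → ℝ^m`, `t ∈ [0,1]`, be a subspace-nondegenerate family of linear
maps (analytic or not). Let `A ⊆ ℝ^n` be a set whose dimension is exhausted by tangentially
`m`-thin subsets `B_i ⊆ A`. Then `dim P_t(A) = min(dim A, m)` for all but countably many
`t ∈ [0,1]`. -/
theorem result {n m : ℕ}
    (P : ℝ → (EuclideanSpace ℝ (Fin n) →ₗ[ℝ] EuclideanSpace ℝ (Fin m)))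
    (hP : SubspaceNondegenerate P)
    (A : Set (EuclideanSpace ℝ (Fin n))) (B : ℕ → Set (EuclideanSpace ℝ (Fin n)))
    (hBA : ∀ i, B i ⊆ A) (hB : ∀ i, TangentiallyThin m (B i))
    (hdim : dimH A ≤ ⨆ i, dimH (B i)) :
    {t ∈ Icc (0 : ℝ) 1 | dimH (P t '' A) ≠ min (dimH A) m}.Countable := by
  have hcount : (⋃ i : ℕ, {t ∈ Icc (0 : ℝ) 1 | dimH (P t '' (B i)) < dimH (B i)}).Countable :=
    countable_iUnion (fun i => one_set P hP (B i) (hB i))
  refine hcount.mono ?_
  rintro t ⟨htI, ht⟩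
  by_contra hcon
  simp only [mem_iUnion, Set.mem_ofPred_eq, not_exists, not_and, not_lt] at hcon
  apply ht
  have hle : dimH (P t '' A) ≤ dimH A := by
    have hl : LipschitzWith ‖(LinearMap.toContinuousLinearMap (P t))‖₊ (P t) :=
      (LinearMap.toContinuousLinearMap (P t)).lipschitz
    exact hl.dimH_image_le A
  have hge : dimH A ≤ dimH (P t '' A) := by
    refine hdim.trans (iSup_le (fun i => ?_))
    exact (hcon i htI).trans (dimH_mono (image_mono (hBA i)))
  have hm : dimH (P t '' A) ≤ m := by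
    refine (dimH_mono (subset_univ _)).trans ?_
    rw [Real.dimH_univ_eq_finrank]
    simp
  have heq : dimH (P t '' A) = dimH A := le_antisymm hle hge
  rw [heq] at hm ⊢
  exact (min_eq_left hm).symm

end Pool.Agent.Results.MP_f1dd74_an.TangentCone
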